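import Pool.Agent.Run7.h985.TC.Stm3

/-!
# Piece W3 of project TC: truncations for retracts of sorted iterated extensions
(adaptation of T3 of helper858)
-/

set_option autoImplicit false
set_option linter.unusedSectionVars false
set_option linter.unusedSimpArgs false
set_option backward.isDefEq.respectTransparency false
set_option backward.defeqAttrib.useBackward true

open CategoryTheory Limits MonoidalCategory Pretriangulated Triangulated ZeroObject

namespace Run7.h675.TC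

open Pool.Agent.Y116.MT Pool.Agent.V1178.MT Run7.h822.MT Run7.h985.TC

universe v u w

section

variable {C : Type u} [Category.{v} C] [Preadditive C] [HasZeroObject C] [HasShift C ℤ]
  [∀ n : ℤ, (shiftFunctor C n).Additive] [Pretriangulated C] [MonoidalCategory C]
  [SymmetricCategory C] [TensorTriangulated C] {E : Type w} [Field E] {R : Realisation C E}
  {U : ObjectProperty C}

/-- closure under isomorphisms -/
def V (U : ObjectProperty C) (X : C) : Prop := ∃ Z, U Z ∧ Nonempty (X ≅ Z)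

lemma V.of {X : C} (h : U X) : V U X := ⟨X, h, ⟨Iso.refl X⟩⟩

lemma V.iso {X Y : C} (h : V U X) (e : Y ≅ X) : V U Y := by
  obtain ⟨Z, hZ, ⟨e'⟩⟩ := h
  exact ⟨Z, hZ, ⟨e ≪≫ e'⟩⟩

lemma V.neg (hF : FthU R U) {X Y : C} (hX : V U X) (hY : V U Y) (n : ℤ) (hn : 0 < n)
    (f : X⟦n⟧ ⟶ Y) : f = 0 := by
  obtain ⟨X', hX', ⟨a⟩⟩ := hX
  obtain ⟨Y', hY', ⟨b⟩⟩ := hY
  have h := hF.neg hX' hY' n hn (a.inv⟦n⟧' ≫ f ≫ b.hom)
  have h2 : f = a.hom⟦n⟧' ≫ (a.inv⟦n⟧' ≫ f ≫ b.hom) ≫ b.inv := by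
    simp only [Category.assoc, Iso.hom_inv_id, Category.comp_id]
    rw [← Category.assoc, ← Functor.map_comp, a.hom_inv_id, CategoryTheory.Functor.map_id,
      Category.id_comp]
  rw [h2, h, zero_comp, comp_zero]

lemma v1 (hF : FthU R U) {X Y : C} {i j : ℤ} (hX : V U (X⟦i⟧)) (hY : V U (Y⟦j⟧)) (hij : i < j)
    (f : X ⟶ Y) : f = 0 := by
  apply (shiftFunctor C j).map_injective
  rw [Functor.map_zero]
  let a : X⟦j⟧ ≅ X⟦i⟧⟦j - i⟧ := (shiftFunctorAdd' C i (j - i) j (by omega)).app X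
  have h := V.neg hF hX hY (j - i) (by omega) (a.inv ≫ f⟦j⟧')
  rw [← cancel_epi a.inv, h, comp_zero]

lemma hdeg (hF : FthU R U) {X : C} {i k : ℤ} (hX : V U (X⟦i⟧)) (hk : k ≠ i) :
    IsZero (R.H.obj (X⟦k⟧)) := by
  obtain ⟨Z, hZ, ⟨e⟩⟩ := hX
  have h1 := hF.deg hZ (k - i) (by omega)
  let a : X⟦k⟧ ≅ X⟦i⟧⟦k - i⟧ := (shiftFunctorAdd' C i (k - i) k (by omega)).app X
  exact h1.of_iso (R.H.mapIso (a ≪≫ (shiftFunctor C (k - i)).mapIso e))

/-- No morphisms to objects in degrees above `c`. -/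
def LL (U : ObjectProperty C) (c : ℤ) (A : C) : Prop :=
  ∀ (Y : C) (j : ℤ), V U (Y⟦j⟧) → c < j → ∀ f : A ⟶ Y, f = 0

/-- No morphisms from `LL`-objects. -/
def UU (U : ObjectProperty C) (c : ℤ) (B : C) : Prop :=
  ∀ A : C, LL U c A → ∀ f : A ⟶ B, f = 0

lemma LL.shift {c : ℤ} {A : C} (h : LL U c A) : LL U c (A⟦(1 : ℤ)⟧) := by
  intro Y j hY hj f
  have hY' : V U ((Y⟦(-1 : ℤ)⟧)⟦j + 1⟧) :=
    hY.iso ((shiftFunctorAdd' C (-1) (j + 1) j (by omega)).app Y).symm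
  apply (shiftFunctor C (-1 : ℤ)).map_injective
  rw [Functor.map_zero]
  let a : A⟦(1 : ℤ)⟧⟦(-1 : ℤ)⟧ ≅ A := (shiftFunctorCompIsoId C 1 (-1) (by omega)).app A
  have h1 := h _ (j + 1) hY' (by omega) (a.inv ≫ f⟦(-1 : ℤ)⟧')
  rw [← cancel_epi a.inv, h1, comp_zero]

lemma wd_high (hF : FthU R U) {l : List ℤ} {X : C} (h : Wd U l X) (c : ℤ)
    (hl : ∀ i ∈ l, c < i) : UU U c X ∧ ∀ k : ℤ, k ≤ c → IsZero (R.H.obj (X⟦k⟧)) := by
  induction h with
  | nil hX =>
    exact ⟨fun A _ f => hX.eq_of_tgt _ _,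
      fun k _ => Functor.map_isZero _ (Functor.map_isZero _ hX)⟩
  | @cons i l H X X' f g h hT hH hX' ih =>
    obtain ⟨h1, h2⟩ := ih (fun j hj => hl j (List.mem_cons_of_mem _ hj))
    have hi := hl i List.mem_cons_self
    refine ⟨fun A hA k => ?_, fun k hk => hz2 R.H hT k (hdeg hF (V.of hH) (by omega)) (h2 k hk)⟩
    obtain ⟨m, rfl⟩ := ce2 hT k (h1 A hA _)
    rw [hA H i (V.of hH) hi m, zero_comp]

lemma wd_split [IsTriangulated C] (hF : FthU R U) (c : ℤ) {l : List ℤ} {X : C} (h : Wd U l X)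
    (hs : l.Pairwise (· ≤ ·)) :
    ∃ (A B : C) (f : A ⟶ X) (g : X ⟶ B) (d : B ⟶ A⟦(1 : ℤ)⟧),
      Triangle.mk f g d ∈ distTriang C ∧ LL U c A ∧
      (∀ k : ℤ, c < k → IsZero (R.H.obj (A⟦k⟧))) ∧ UU U c B ∧
      (∀ k : ℤ, k ≤ c → IsZero (R.H.obj (B⟦k⟧))) := by
  induction h with
  | @nil X hX =>
    refine ⟨X, 0, 𝟙 X, 0, 0, contractible_distinguished X, fun Y j _ _ f => hX.eq_of_src _ _,
      fun k _ => Functor.map_isZero _ (Functor.map_isZero _ hX), fun A _ f => ?_,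
      fun k _ => Functor.map_isZero _ (Functor.map_isZero _ (isZero_zero C))⟩
    exact (isZero_zero C).eq_of_tgt _ _
  | @cons i l H X X' f g h hT hH hX' ih =>
    by_cases hc : i ≤ c
    · obtain ⟨A', B, f', g', d', hT', hA, hA', hB, hB'⟩ := ih (List.Pairwise.of_cons hs)
      obtain ⟨A, f₀, d₀, hT₀⟩ := distinguished_cocone_triangle₁ (g ≫ g')
      let o := someOctahedron rfl (rotD hT) (rotD hT') (rotD hT₀)
      refine ⟨A, B, f₀, g ≫ g', d₀, hT₀, ?_, ?_, hB, hB'⟩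
      · intro Y j hY hj k
        apply (shiftFunctor C (1 : ℤ)).map_injective
        rw [Functor.map_zero]
        have hz : ∀ {W : C}, (∀ m : W ⟶ Y, m = 0) → ∀ m : W⟦(1 : ℤ)⟧ ⟶ Y⟦(1 : ℤ)⟧, m = 0 := by
          intro W hW m
          obtain ⟨m', rfl⟩ := (shiftFunctor C (1 : ℤ)).map_surjective m
          rw [hW m', Functor.map_zero]
        obtain ⟨m, hm⟩ := ye2 o.mem (k⟦(1 : ℤ)⟧')
          (hz (fun m => v1 hF (V.of hH) hY (by omega) m) _)
        rw [hm, hz (fun m => hA Y j hY hj m) m, comp_zero]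
      · intro k hk
        have e : ∀ W : C, W⟦k⟧ ≅ W⟦(1 : ℤ)⟧⟦k - 1⟧ := fun W =>
          (shiftFunctorAdd' C 1 (k - 1) k (by omega)).app W
        have h1 := hz2 R.H o.mem (k - 1)
          ((hdeg hF (V.of hH) (by omega : k ≠ i)).of_iso (R.H.mapIso (e H).symm))
          ((hA' k hk).of_iso (R.H.mapIso (e A').symm))
        exact h1.of_iso (R.H.mapIso (e A))
    · have hX : Wd U (i :: l) X := Wd.cons f g h hT hH hX'
      have hl : ∀ j ∈ i :: l, c < j := by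
        intro j hj
        rcases List.mem_cons.1 hj with rfl | hj
        · omega
        · have := List.rel_of_pairwise_cons hs hj
          omega
      obtain ⟨h1, h2⟩ := wd_high hF hX c hl
      refine ⟨0, X, 0, 𝟙 X, 0, contractible_distinguished₁ X,
        fun Y j _ _ f => (isZero_zero C).eq_of_src _ _,
        fun k _ => Functor.map_isZero _ (Functor.map_isZero _ (isZero_zero C)), h1, h2⟩

/-- An endomorphism killed by the first map of a triangle. -/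
lemma kill {A X B W : C} {f : A ⟶ X} {g : X ⟶ B} {d : B ⟶ A⟦(1 : ℤ)⟧}
    (hT : Triangle.mk f g d ∈ distTriang C) (hB : ∀ l : W⟦(1 : ℤ)⟧ ⟶ B, l = 0)
    (k : W ⟶ A) (hk : k ≫ f = 0) : k = 0 := by
  obtain ⟨l, hl⟩ := ce1 hT (k⟦(1 : ℤ)⟧') (by rw [← Functor.map_comp, hk, Functor.map_zero])
  apply (shiftFunctor C (1 : ℤ)).map_injective
  rw [hl, hB l, zero_comp, Functor.map_zero]

end

theorem t_W3 : S_W3.{v, u, w} := by
  intro C _ _ _ _ _ _ _ _ _ _ _ _ E _ R U hF hX X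
  obtain ⟨l, X', i, r, hir, hs, hfil⟩ := hX X
  obtain ⟨A, B, f, g, d, hT, hA, hA', hB, hB'⟩ := wd_split hF 0 hfil hs
  obtain ⟨e', he'⟩ := ce2 hT (f ≫ r ≫ i) (hB A hA _)
  have hk : ∀ k : A ⟶ A, k ≫ f = 0 → k = 0 :=
    fun k hk => kill hT (fun l => hB _ hA.shift l) k hk
  have hid : e' ≫ e' = e' := by
    rw [← sub_eq_zero]
    apply hk
    rw [Preadditive.sub_comp, Category.assoc, ← he', ← Category.assoc e' f, ← he']
    simp only [Category.assoc]
    rw [← Category.assoc i r i, hir, Category.id_comp, sub_self]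
  obtain ⟨A', s, t, hst, hts⟩ := IsIdempotentComplete.idempotents_split A e' hid
  refine ⟨A', s ≫ f ≫ r, ⟨fun k hk => ?_, fun k hk => ?_⟩⟩
  · rw [IsZero.iff_id_eq_zero]
    have h1 : R.H.map (s⟦k⟧') ≫ R.H.map (t⟦k⟧') = 𝟙 _ := by
      rw [← Functor.map_comp, ← Functor.map_comp, hst, CategoryTheory.Functor.map_id,
        CategoryTheory.Functor.map_id]
    rw [← h1, (hA' k hk).eq_of_tgt (R.H.map (s⟦k⟧')) 0, zero_comp]
  · have m1 := hmono1 R.H hT k (hB' (k - 1) (by omega))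
    have m2 := hepi1 R.H hT k (hB' k hk)
    have m3 : IsIso (R.H.map (f⟦k⟧')) := isIso_of_mono_of_epi _
    refine ⟨R.H.map (i⟦k⟧') ≫ inv (R.H.map (f⟦k⟧')) ≫ R.H.map (t⟦k⟧'), ?_, ?_⟩
    · have h1 : R.H.map (f⟦k⟧') ≫ R.H.map (r⟦k⟧') ≫ R.H.map (i⟦k⟧') =
          R.H.map (t⟦k⟧') ≫ R.H.map (s⟦k⟧') ≫ R.H.map (f⟦k⟧') := by
        simp only [← Functor.map_comp]
        rw [he', ← hts, Category.assoc]
      have h2 : R.H.map (s⟦k⟧') ≫ R.H.map (t⟦k⟧') = 𝟙 _ := by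
        rw [← Functor.map_comp, ← Functor.map_comp, hst, CategoryTheory.Functor.map_id,
          CategoryTheory.Functor.map_id]
      simp only [Functor.map_comp, Category.assoc]
      rw [← Category.assoc (R.H.map (r⟦k⟧')), ← Category.assoc (R.H.map (f⟦k⟧')), h1]
      simp only [Category.assoc, IsIso.hom_inv_id_assoc]
      rw [← Category.assoc (R.H.map (s⟦k⟧')), h2, Category.id_comp]
    · have h1 : R.H.map (t⟦k⟧') ≫ R.H.map (s⟦k⟧') ≫ R.H.map (f⟦k⟧') =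
          R.H.map (f⟦k⟧') ≫ R.H.map (r⟦k⟧') ≫ R.H.map (i⟦k⟧') := by
        simp only [← Functor.map_comp]
        rw [he', ← hts, Category.assoc]
      have h2 : R.H.map (i⟦k⟧') ≫ R.H.map (r⟦k⟧') = 𝟙 _ := by
        rw [← Functor.map_comp, ← Functor.map_comp, hir, CategoryTheory.Functor.map_id,
          CategoryTheory.Functor.map_id]
      simp only [Functor.map_comp, Category.assoc]
      rw [← Category.assoc (R.H.map (s⟦k⟧')), ← Category.assoc (R.H.map (t⟦k⟧')), h1]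
      simp only [Category.assoc, IsIso.inv_hom_id_assoc]
      rw [← Category.assoc (R.H.map (i⟦k⟧')), h2, Category.id_comp]

end Run7.h675.TC
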